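import Mathlib
import Pool.Agent.W313.HB.Stm4
import Pool.Agent.W335.BMX.Odd
import Pool.Agent.W613.HB.T1

/-!
Project HB (helper313), part ELSB1: local points at the large primes, one parameter.
-/

set_option autoImplicit false
set_option linter.all false

namespace Pool.Agent.W320.HB

open Finset Polynomial
open Pool.Agent.W313.BMX (Splits)
open Pool.Agent.W313.HB
open Pool.Agent.W613.HBT (lineP_mul lineP_eval aeval_cast sep_of_comb)

theorem exists_ne {n : ℕ} (F : MvPolynomial (Fin (n + 1)) ℤ) (hF : F ≠ 0) :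
    ∃ v : Fin (n + 1) → ℤ, MvPolynomial.eval v F ≠ 0 := by
  by_contra h
  push Not at h
  exact hF (MvPolynomial.funext fun v => by rw [h v, map_zero])

/-- If `-m` is a square modulo `q`, then it is a square in `ℚ_q`. -/
theorem sq_neg (q : ℕ) [hq : Fact q.Prime] (hq2 : q ≠ 2) (m : ℤ) (h : jacobiSym m q = 1) :
    m ≠ 0 ∧ ∃ u : ℚ_[q], u ≠ 0 ∧ u * u = (m : ℚ_[q]) := by
  have h3 : legendreSym q m = 1 := by
    rw [jacobiSym.legendreSym.to_jacobiSym, h]
  have hm : ¬ (q : ℤ) ∣ m := by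
    intro hdv
    have h4 : legendreSym q m = 0 := by
      rw [legendreSym.eq_zero_iff, ZMod.intCast_zmod_eq_zero_iff_dvd]
      exact hdv
    rw [h3] at h4
    exact one_ne_zero h4
  have hone : ¬ (q : ℤ) ∣ 1 := by
    intro h5
    have h6 : q ∣ 1 := by exact_mod_cast h5
    exact hq.out.one_lt.ne' (Nat.dvd_one.1 h6)
  obtain ⟨u, hu⟩ := Pool.Agent.W335.BMX.odd1 q hq2 m 1 hm hone (by rw [h3, legendreSym.at_one])
  have hm0 : m ≠ 0 := fun h0 => hm (h0 ▸ dvd_zero _)
  have hu' : u * u = (m : ℚ_[q]) := by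
    have : (m : ℚ_[q]) * ((1 : ℤ) : ℚ_[q]) = (m : ℚ_[q]) := by push_cast; ring
    rw [← this]
    first
      | exact hu.symm
      | exact hu
      | (push_cast at hu ⊢; linear_combination -hu)
      | (push_cast at hu ⊢; linear_combination hu)
  refine ⟨hm0, u, ?_, hu'⟩
  rintro rfl
  rw [mul_zero] at hu'
  exact hm0 (by exact_mod_cast hu'.symm)

theorem elsb1_ (hex : S_EXIST) (hl : S_LDEG) (hd : S_DISC) : S_ELSB1 := by
  intro n α β A B hA hB hαβ hsq
  have hF : (A * B).IsHomogeneous (2 * α + 2 * β) := hA.mul hB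
  have hne : A * B ≠ 0 := by
    intro h0
    rw [h0, map_zero] at hsq
    exact not_squarefree_zero hsq
  obtain ⟨v, hv⟩ := exists_ne (A * B) hne
  obtain ⟨r, hr0, hrw⟩ := hd n _ (A * B) hF hsq v hv
  obtain ⟨w, hw⟩ := exists_ne r hr0
  obtain ⟨a1, b1, hab⟩ := hrw w
  obtain ⟨hdeg, -, -⟩ := hl n _ (A * B) hF w v hv
  set P1 := lineP A w v with hP1
  set P2 := lineP B w v with hP2
  have hP : lineP (A * B) w v = P1 * P2 := lineP_mul _ _ _ _
  rw [hP] at hab hdeg
  have hsep : ((P1 * P2).map (Int.castRingHom ℚ)).Separable := by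
    have h1 := sep_of_comb (Int.castRingHom ℚ) (P1 * P2) a1 b1 1 _ hab (by
      rw [one_mul, eq_intCast]
      exact_mod_cast hw)
    simpa using h1
  have hgood : Good (-(P1 * P2)) := by
    refine ⟨?_, by rw [natDegree_neg, hdeg]; omega⟩
    rw [Polynomial.map_neg]
    have h1 : -((P1 * P2).map (Int.castRingHom ℚ)) = (-1) * (P1 * P2).map (Int.castRingHom ℚ) := by
      ring
    rw [h1]
    exact Separable.unit_mul isUnit_one.neg hsep
  have hG0 : P1 * P2 ≠ 0 := by
    intro h0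
    rw [h0, natDegree_zero] at hdeg
    omega
  obtain ⟨z0, hz0⟩ := hex (-(P1 * P2)) (P1 * P2) hgood hG0
  refine ⟨max 3 z0, fun p hpF hp a ha => ?_⟩
  have hp2 : p ≠ 2 := by
    have := (le_max_left 3 z0).trans hp
    omega
  obtain ⟨s, -, hs, -⟩ := hz0 p hpF.out ((le_max_right _ _).trans hp) 1 (Or.inl rfl)
  obtain ⟨hm0, u, hu0, hu⟩ := sq_neg p hp2 _ hs
  rw [eval_neg, eval_mul, neg_ne_zero] at hm0
  rw [eval_neg, eval_mul] at hu
  have e1 : P1.eval (s : ℤ) = MvPolynomial.eval (fun i => w i + (s : ℤ) * v i) A :=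
    lineP_eval _ _ _ _
  have e2 : P2.eval (s : ℤ) = MvPolynomial.eval (fun i => w i + (s : ℤ) * v i) B :=
    lineP_eval _ _ _ _
  rw [e1, e2] at hm0 hu
  refine ⟨fun i => ((w i + (s : ℤ) * v i : ℤ) : ℚ_[p]), Set.mem_univ _, ?_, ?_, ?_⟩
  · rw [aeval_cast]
    exact_mod_cast left_ne_zero_of_mul hm0
  · rw [aeval_cast]
    exact_mod_cast right_ne_zero_of_mul hm0
  · rw [aeval_cast, aeval_cast]
    set x : ℤ := MvPolynomial.eval (fun i => w i + (s : ℤ) * v i) A with hx
    set y : ℤ := MvPolynomial.eval (fun i => w i + (s : ℤ) * v i) B with hy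
    refine ⟨u, (x : ℚ_[p]), 0, Or.inl hu0, ?_⟩
    push_cast at hu
    linear_combination (-((a : ℚ_[p]) * (x : ℚ_[p]))) * hu

end Pool.Agent.W320.HB
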